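import Pool.Agent.helper93.FR.Spec

set_option autoImplicit false

namespace Pool.Agent.helper93.FR

open Matrix BigOperators

/-- The unit vector matrix T_ζ with columns X_i ζ intertwines Lm N and X. -/
theorem Ad_T {r : ℕ} {N : Fin r → Fin r → Fin r → ℕ} {o : Fin r} {st : Fin r → Fin r}
    {n : ℕ} {a : Fin n → Fin r}
    {X : Fin r → Matrix (Fin n) (Fin n) ℂ} {D : Matrix (Fin n) (Fin n) ℂ}
    (hX : Flat N o st n a X D) (ζ : Fin n → ℂ) (i : Fin r) :
    (Matrix.of fun (p : Fin n) (m : Fin r) => ∑ q, X m p q * ζ q) * Lm N i =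
      X i * (Matrix.of fun (p : Fin n) (m : Fin r) => ∑ q, X m p q * ζ q) := by
  ext p j
  have h1 : ∀ q, (X i * X j) p q = ∑ k, (N i j k : ℂ) * X k p q := by
    intro q
    rw [hX.mul i j, Matrix.sum_apply]
    rfl
  simp only [Matrix.mul_apply, Matrix.of_apply, Lm]
  have h2 : ∀ x, X i p x * ∑ q, X j x q * ζ q = ∑ q, X i p x * X j x q * ζ q := by
    intro x
    rw [Finset.mul_sum]
    exact Finset.sum_congr rfl fun q _ => (mul_assoc _ _ _).symm
  simp only [h2]
  rw [Finset.sum_comm (f := fun x q => X i p x * X j x q * ζ q)]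
  have h3 : ∀ q, ∑ x, X i p x * X j x q * ζ q = (∑ k, (N i j k : ℂ) * X k p q) * ζ q := by
    intro q
    rw [← h1 q, Matrix.mul_apply, Finset.sum_mul]
  simp only [h3, Finset.sum_mul]
  rw [Finset.sum_comm]
  refine Finset.sum_congr rfl fun q _ => Finset.sum_congr rfl fun m _ => ?_
  ring

/-- The data extracted from the decomposition. -/
theorem Ad_dec (hD : Dec_stmt) {r k : ℕ} {N : Fin r → Fin r → Fin r → ℕ} {o : Fin r}
    {st : Fin r → Fin r} (hN : IsFusion N o st) {n : ℕ} {a : Fin n → Fin r}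
    {X : Fin r → Matrix (Fin n) (Fin n) ℂ} {D : Matrix (Fin n) (Fin n) ℂ}
    (hX : Flat N o st n a X D) (γ : Fin k → Fin r)
    (τ : TypSys (Fin k) r (fun j => Lm N (γ j))) :
    ∃ (g : ℕ) (b : Fin g → Fin τ.m) (c : Fin g → Fin r)
      (W : ∀ l, Matrix (Fin n) (Fin (τ.w (b l))) ℂ),
      g ≤ n ∧ (∑ l, τ.w (b l) = n) ∧ (∀ l, (W l)ᴴ * W l = 1) ∧
      (∀ l l', l ≠ l' → (W l)ᴴ * W l' = 0) ∧
      (∀ l j, X (γ j) * W l = W l * τ.σ (b l) j) ∧
      (∀ l p x, W l p x ≠ 0 → a p = c l) := by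
  classical
  set E : Fin r → Matrix (Fin n) (Fin n) ℂ := fun c =>
    Matrix.diagonal (fun p => if a p = c then (1 : ℂ) else 0) with hE
  obtain ⟨g, d, J, z, hJJ, hJo, -, hirr, hint, hsum, hg⟩ :=
    hD (Fin k ⊕ Fin r) n (Sum.elim (fun j => X (γ j)) E)
  have hEX : ∀ c i, E c * X i = X i * E c := by
    intro c i
    ext p q
    rw [hE]
    simp only [Matrix.diagonal_mul, Matrix.mul_diagonal]
    by_cases hpq : a p = a q
    · rw [hpq, mul_comm]
    · rw [hX.blkX i p q hpq]
      simp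
  have hEE : ∀ c c', E c * E c' = E c' * E c := by
    intro c c'
    rw [hE]
    simp only [Matrix.diagonal_mul_diagonal]
    congr 1
    funext p
    rw [mul_comm]
  have hE2 : ∀ c, E c * E c = E c := by
    intro c
    rw [hE]
    simp only [Matrix.diagonal_mul_diagonal]
    congr 1
    funext p
    split_ifs <;> simp
  have hEH : ∀ c, (E c)ᴴ = E c := by
    intro c
    rw [hE]
    simp only [Matrix.diagonal_conjTranspose]
    congr 1
    funext p
    simp only [Pi.star_apply]
    split_ifs <;> simp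
  have hXH : ∀ i, (X i)ᴴ = X (st i) := fun i => (hX.star i).symm
  -- z in terms of J
  have hzJ : ∀ l j, z l j = (J l)ᴴ * (Sum.elim (fun j => X (γ j)) E j) * J l := by
    intro l j
    rw [Matrix.mul_assoc, ← (hint l j).1, ← Matrix.mul_assoc, hJJ, Matrix.one_mul]
  -- the scalars
  have hsc : ∀ l c, ∃ t : ℂ, z l (Sum.inr c) = t • (1 : Matrix (Fin (d l)) (Fin (d l)) ℂ) := by
    intro l c
    refine (hirr l).2 _ ?_
    intro j
    have key : ∀ (Y : Matrix (Fin n) (Fin n) ℂ) (y : Matrix (Fin (d l)) (Fin (d l)) ℂ),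
        J l * y = Y * J l → E c * Y = Y * E c →
        z l (Sum.inr c) * y = y * z l (Sum.inr c) := by
      intro Y y h1 h2
      have e1 : z l (Sum.inr c) = (J l)ᴴ * E c * J l := hzJ l (Sum.inr c)
      have e2 : y = (J l)ᴴ * Y * J l := by
        rw [Matrix.mul_assoc, ← h1, ← Matrix.mul_assoc, hJJ, Matrix.one_mul]
      have e3 : J l * z l (Sum.inr c) = E c * J l := (hint l (Sum.inr c)).1
      calc z l (Sum.inr c) * y = (J l)ᴴ * E c * (J l * y) := by
            rw [e1]; simp only [Matrix.mul_assoc]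
        _ = (J l)ᴴ * (E c * Y) * J l := by rw [h1]; simp only [Matrix.mul_assoc]
        _ = (J l)ᴴ * Y * (E c * J l) := by rw [h2]; simp only [Matrix.mul_assoc]
        _ = (J l)ᴴ * Y * (J l * z l (Sum.inr c)) := by rw [e3]
        _ = ((J l)ᴴ * Y * J l) * z l (Sum.inr c) := by simp only [Matrix.mul_assoc]
        _ = y * z l (Sum.inr c) := by rw [← e2]
    refine ⟨key _ _ (hint l j).1 ?_, key _ _ (hint l j).2 ?_⟩
    · cases j with
      | inl j => exact hEX c _
      | inr c' => exact hEE c c'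
    · cases j with
      | inl j =>
        show E c * (X (γ j))ᴴ = (X (γ j))ᴴ * E c
        rw [hXH]
        exact hEX c _
      | inr c' =>
        show E c * (E c')ᴴ = (E c')ᴴ * E c
        rw [hEH]
        exact hEE c c'
  choose t ht using hsc
  have hne : ∀ l, Nonempty (Fin (d l)) := fun l => (hirr l).1
  -- some scalar is one
  have hex : ∀ l, ∃ c, E c * J l = J l := by
    intro l
    obtain ⟨x0⟩ := hne l
    have hsumE : ∑ c, E c = 1 := by
      ext p q
      rw [Matrix.sum_apply, hE]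
      simp only [Matrix.diagonal_apply, Matrix.one_apply]
      by_cases hpq : p = q
      · subst hpq
        simp
      · simp [hpq]
    have h1 : ∑ c, z l (Sum.inr c) = 1 := by
      have : ∀ c, z l (Sum.inr c) = (J l)ᴴ * E c * J l := fun c => hzJ l (Sum.inr c)
      simp only [this]
      rw [← Matrix.sum_mul, ← Matrix.mul_sum, hsumE, Matrix.mul_one, hJJ]
    have h2 : ∑ c, t l c = 1 := by
      have h3 := congrFun (congrFun h1 x0) x0
      rw [Matrix.sum_apply] at h3
      simp only [ht, Matrix.smul_apply, Matrix.one_apply_eq, smul_eq_mul, mul_one] at h3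
      exact h3
    have h4 : ∃ c, t l c ≠ 0 := by
      by_contra hcon
      push Not at hcon
      rw [Finset.sum_eq_zero fun c _ => hcon c] at h2
      exact zero_ne_one h2
    obtain ⟨c, hc⟩ := h4
    refine ⟨c, ?_⟩
    have h5 : z l (Sum.inr c) * z l (Sum.inr c) = z l (Sum.inr c) := by
      have e1 : z l (Sum.inr c) = (J l)ᴴ * E c * J l := hzJ l (Sum.inr c)
      have e3 : J l * z l (Sum.inr c) = E c * J l := (hint l (Sum.inr c)).1
      calc z l (Sum.inr c) * z l (Sum.inr c) = (J l)ᴴ * E c * (J l * z l (Sum.inr c)) := by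
            nth_rw 1 [e1]; simp only [Matrix.mul_assoc]
        _ = (J l)ᴴ * (E c * E c) * J l := by rw [e3]; simp only [Matrix.mul_assoc]
        _ = z l (Sum.inr c) := by rw [hE2, ← e1]
    rw [ht] at h5
    have h6 := congrFun (congrFun h5 x0) x0
    simp only [Matrix.mul_smul, Matrix.smul_apply,
      Matrix.one_apply_eq, smul_eq_mul, mul_one] at h6
    have h7 : t l c = 1 := by
      have := mul_left_cancel₀ hc (h6.trans (mul_one _).symm)
      exact this
    have e3 : J l * z l (Sum.inr c) = E c * J l := (hint l (Sum.inr c)).1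
    rw [← e3, ht, h7, one_smul, Matrix.mul_one]
  choose c hc using hex
  -- irreducibility of the restriction
  have hirr' : ∀ l, Irr (fun j : Fin k => z l (Sum.inl j)) := by
    intro l
    refine ⟨hne l, ?_⟩
    intro s hs
    refine (hirr l).2 s ?_
    intro j
    cases j with
    | inl j => exact hs j
    | inr c' =>
      rw [ht]
      refine ⟨by simp, ?_⟩
      simp [Matrix.conjTranspose_smul]
  have hint' : ∀ l, SInt (fun j : Fin k => z l (Sum.inl j)) (fun j => X (γ j)) (J l) :=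
    fun l j => hint l (Sum.inl j)
  -- the types
  have hty : ∀ l, ∃ b, ∃ V : Matrix (Fin (d l)) (Fin (τ.w b)) ℂ, Vᴴ * V = 1 ∧ V * Vᴴ = 1 ∧
      SInt (τ.σ b) (fun j : Fin k => z l (Sum.inl j)) V := by
    intro l
    obtain ⟨x0⟩ := hne l
    have hp : ∃ p, J l p x0 ≠ 0 := by
      by_contra hcon
      push Not at hcon
      have h1 := congrFun (congrFun (hJJ l) x0) x0
      rw [Matrix.mul_apply, Matrix.one_apply_eq] at h1
      rw [Finset.sum_eq_zero fun p _ => by rw [hcon p, mul_zero]] at h1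
      exact zero_ne_one h1
    obtain ⟨p, hp⟩ := hp
    set T : Matrix (Fin n) (Fin r) ℂ :=
      Matrix.of fun (p' : Fin n) (m : Fin r) => ∑ q, X m p' q * (Pi.single p (1 : ℂ) : Fin n → ℂ) q
      with hT
    have hTi : ∀ i, T * Lm N i = X i * T := fun i => Ad_T hX _ i
    have hTi' : ∀ i, T * (Lm N i)ᴴ = (X i)ᴴ * T := by
      intro i
      rw [← Lm_star hN, hXH]
      exact hTi (st i)
    refine τ.compl (d l) (fun j => z l (Sum.inl j)) (Tᴴ * J l) (hirr' l) ?_ ?_
    · intro j
      have hA : Tᴴ * X (γ j) = Lm N (γ j) * Tᴴ := by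
        have := congrArg Matrix.conjTranspose (hTi' (γ j))
        rw [Matrix.conjTranspose_mul, Matrix.conjTranspose_mul, Matrix.conjTranspose_conjTranspose,
          Matrix.conjTranspose_conjTranspose] at this
        exact this.symm
      have hB : Tᴴ * (X (γ j))ᴴ = (Lm N (γ j))ᴴ * Tᴴ := by
        have := congrArg Matrix.conjTranspose (hTi (γ j))
        rw [Matrix.conjTranspose_mul, Matrix.conjTranspose_mul] at this
        exact this.symm
      refine ⟨?_, ?_⟩
      · show Tᴴ * J l * z l (Sum.inl j) = Lm N (γ j) * (Tᴴ * J l)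
        rw [Matrix.mul_assoc, (hint' l j).1, ← Matrix.mul_assoc, hA, Matrix.mul_assoc]
      · show Tᴴ * J l * (z l (Sum.inl j))ᴴ = (Lm N (γ j))ᴴ * (Tᴴ * J l)
        rw [Matrix.mul_assoc, (hint' l j).2, ← Matrix.mul_assoc, hB, Matrix.mul_assoc]
    · intro h0
      have h1 := congrFun (congrFun h0 o) x0
      rw [Matrix.mul_apply] at h1
      have h2 : ∀ p', (Tᴴ) o p' = if p' = p then 1 else 0 := by
        intro p'
        rw [Matrix.conjTranspose_apply, hT, Matrix.of_apply]
        rw [hX.one]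
        simp [Matrix.one_apply, Pi.single_apply]
      simp only [h2] at h1
      simp at h1
      exact hp h1
  choose b V hV1 hV2 hV3 using hty
  have hdw : ∀ l, τ.w (b l) = d l := by
    intro l
    have h1 : ((V l)ᴴ * V l).trace = (V l * (V l)ᴴ).trace := Matrix.trace_mul_comm _ _
    rw [hV1, hV2, Matrix.trace_one, Matrix.trace_one, Fintype.card_fin, Fintype.card_fin] at h1
    exact_mod_cast h1
  refine ⟨g, b, c, fun l => J l * V l, hg, ?_, ?_, ?_, ?_, ?_⟩
  · rw [← hsum]
    exact Finset.sum_congr rfl fun l _ => hdw l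
  · intro l
    rw [Matrix.conjTranspose_mul, Matrix.mul_assoc, ← Matrix.mul_assoc (J l)ᴴ, hJJ,
      Matrix.one_mul, hV1]
  · intro l l' hll
    rw [Matrix.conjTranspose_mul, Matrix.mul_assoc, ← Matrix.mul_assoc (J l)ᴴ, hJo l l' hll,
      Matrix.zero_mul, Matrix.mul_zero]
  · intro l j
    rw [← Matrix.mul_assoc, ← (hint' l j).1, Matrix.mul_assoc, ← (hV3 l j).1,
      Matrix.mul_assoc]
  · intro l p x hx
    by_contra hcon
    apply hx
    clear hx
    have h1 : J l = E (c l) * J l := (hc l).symm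
    have h2 : ∀ y, J l p y = 0 := by
      intro y
      rw [h1, hE, Matrix.diagonal_mul, if_neg hcon, zero_mul]
    show (J l * V l) p x = 0
    rw [Matrix.mul_apply]
    exact Finset.sum_eq_zero fun y _ => by rw [h2, zero_mul]


theorem Ad (_hS : Sch_stmt) (hD : Dec_stmt) : Ad_stmt := by
  classical
  intro r k N o st hN n a X D hX γ τ
  obtain ⟨g, b, c, W, hg, hsum, hWW, hWo, hWi, hWs⟩ := Ad_dec hD hN hX γ τ
  have hgr : g ≤ r := hg.trans hX.hn
  have hcard : Fintype.card (Σ l : Fin g, Fin (τ.w (b l))) = n := by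
    rw [Fintype.card_sigma]
    simpa using hsum
  let e : Fin n ≃ (Σ l : Fin g, Fin (τ.w (b l))) :=
    (Fintype.equivFinOfCardEq hcard).symm
  -- the two basic computations
  have hA : ∀ u v : (Σ l : Fin g, Fin (τ.w (b l))),
      ((W u.1)ᴴ * W v.1) u.2 v.2 = if u = v then 1 else 0 := by
    rintro ⟨l, x⟩ ⟨l', y⟩
    by_cases hl : l = l'
    · subst hl
      simp only
      rw [hWW, Matrix.one_apply]
      by_cases hxy : x = y
      · rw [if_pos hxy, if_pos (by rw [hxy])]
      · rw [if_neg hxy, if_neg]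
        intro h
        exact hxy (eq_of_heq (Sigma.mk.inj_iff.1 h).2)
    · simp only
      rw [hWo _ _ hl, if_neg]
      · rfl
      · intro h
        exact hl (Sigma.mk.inj_iff.1 h).1
  have hB : ∀ (j : Fin k) (u v : (Σ l : Fin g, Fin (τ.w (b l)))),
      ((W u.1)ᴴ * (X (γ j) * W v.1)) u.2 v.2 =
        if u.1 = v.1 then τ.e (b v.1) j u.2 v.2 else 0 := by
    rintro j ⟨l, x⟩ ⟨l', y⟩
    by_cases hl : l = l'
    · subst hl
      simp only
      rw [hWi, ← Matrix.mul_assoc, hWW, Matrix.one_mul]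
      show τ.σ (b l) j x y = τ.e (b l) j x y
      rw [TypSys.e, dif_pos ⟨x.2, y.2⟩]
    · simp only
      rw [hWi, ← Matrix.mul_assoc, hWo _ _ hl, Matrix.zero_mul, if_neg hl]
      rfl
  set U : Matrix (Fin n) (Fin n) ℂ := Matrix.of fun s p => W (e p).1 s (e p).2 with hU
  have hUs : ∀ s p, U s p ≠ 0 → a s = c (e p).1 := fun s p h => hWs _ _ _ h
  have hUU : Uᴴ * U = 1 := by
    ext p q
    have h1 : (Uᴴ * U) p q = ((W (e p).1)ᴴ * W (e q).1) (e p).2 (e q).2 := rfl
    rw [h1, hA, Matrix.one_apply]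
    by_cases hpq : p = q
    · rw [if_pos hpq, if_pos (by rw [hpq])]
    · rw [if_neg hpq, if_neg (fun h => hpq (e.injective h))]
  have hUU' : U * Uᴴ = 1 := mul_eq_one_comm.1 hUU
  have hform : ∀ j p q, (Uᴴ * X (γ j) * U) p q =
      if (e p).1 = (e q).1 then τ.e (b (e q).1) j (e p).2 (e q).2 else 0 := by
    intro j p q
    rw [Matrix.mul_assoc]
    have h1 : (Uᴴ * (X (γ j) * U)) p q =
      ((W (e p).1)ᴴ * (X (γ j) * W (e q).1)) (e p).2 (e q).2 := rfl
    rw [h1, hB]
  have hXH : ∀ i, (X i)ᴴ = X (st i) := fun i => (hX.star i).symm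
  have hlt : ∀ p, ((e p).2 : ℕ) < r := fun p => lt_of_lt_of_le (e p).2.2 (τ.hw _)
  -- products
  have hmulU : ∀ A B : Matrix (Fin n) (Fin n) ℂ,
      (Uᴴ * A * U) * (Uᴴ * B * U) = Uᴴ * (A * B) * U := by
    intro A B
    calc (Uᴴ * A * U) * (Uᴴ * B * U) = Uᴴ * A * (U * Uᴴ) * B * U := by
          simp only [Matrix.mul_assoc]
      _ = Uᴴ * (A * B) * U := by
          rw [hUU', Matrix.mul_one]; simp only [Matrix.mul_assoc]
  have htr : ∀ M : Matrix (Fin n) (Fin n) ℂ, (Uᴴ * M * U).trace = M.trace := by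
    intro M
    rw [Matrix.trace_mul_comm, ← Matrix.mul_assoc, hUU', Matrix.one_mul]
  -- labels
  have hdl : ∀ c0, dl (fun p => c (e p).1) c0 = dl a c0 := by
    intro c0
    set E : Matrix (Fin n) (Fin n) ℂ := Matrix.diagonal (fun p => if a p = c0 then (1 : ℂ) else 0)
      with hE
    set E' : Matrix (Fin n) (Fin n) ℂ :=
      Matrix.diagonal (fun p => if c (e p).1 = c0 then (1 : ℂ) else 0) with hE'
    have h1 : E * U = U * E' := by
      ext s p
      rw [hE, hE', Matrix.diagonal_mul, Matrix.mul_diagonal]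
      by_cases hz : U s p = 0
      · rw [hz]; simp
      · rw [hUs s p hz, mul_comm]
    have h2 : E'.trace = E.trace := by
      have h3 : E' = Uᴴ * (E * U) := by
        rw [h1, ← Matrix.mul_assoc, hUU, Matrix.one_mul]
      rw [h3, Matrix.trace_mul_comm, Matrix.mul_assoc, hUU', Matrix.mul_one]
    have h4 : ∀ f : Fin n → Fin r, (Matrix.diagonal (fun p => if f p = c0 then (1 : ℂ) else 0)).trace
        = ((dl f c0 : ℕ) : ℂ) := by
      intro f
      rw [Matrix.trace_diagonal, Finset.sum_boole]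
      rfl
    rw [hE, hE', h4 a, h4 (fun p => c (e p).1)] at h2
    exact_mod_cast h2
  have hblk : ∀ A : Matrix (Fin n) (Fin n) ℂ, (∀ p q, a p ≠ a q → A p q = 0) →
      ∀ p q, c (e p).1 ≠ c (e q).1 → (Uᴴ * A * U) p q = 0 := by
    intro A hA' p q hpq
    rw [Matrix.mul_apply]
    refine Finset.sum_eq_zero fun t _ => ?_
    by_cases h1 : U t q = 0
    · rw [h1, mul_zero]
    · rw [Matrix.mul_apply, Finset.sum_eq_zero, zero_mul]
      intro s _
      by_cases h2 : U s p = 0
      · rw [Matrix.conjTranspose_apply, h2, star_zero, zero_mul]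
      · rw [hA' s t, mul_zero]
        rw [hUs s p h2, hUs t q h1]
        exact hpq
  have hsqf : ∀ f : Fin n → Fin r,
      ((Finset.univ : Finset (Fin n × Fin n)).filter fun z => f z.1 = f z.2).card =
        ∑ c0, dl f c0 * dl f c0 := by
    intro f
    rw [Finset.card_eq_sum_card_fiberwise (f := fun z : Fin n × Fin n => f z.1)
      (t := Finset.univ) (fun x _ => Finset.mem_univ _)]
    refine Finset.sum_congr rfl fun c0 _ => ?_
    rw [dl, ← Finset.card_product]
    congr 1
    ext z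
    simp only [Finset.mem_filter, Finset.mem_univ, true_and, Finset.mem_product]
    constructor
    · rintro ⟨h1, h2⟩
      exact ⟨h2, by rw [← h1, h2]⟩
    · rintro ⟨h1, h2⟩
      exact ⟨by rw [h1, h2], h1⟩
  refine ⟨fun p => c (e p).1, fun p => Fin.castLE hgr (e p).1, fun p => b (e p).1,
    fun p => ⟨(e p).2, hlt p⟩, fun i => Uᴴ * X i * U, Uᴴ * D * U, ?_, ?_, hdl, ?_⟩
  · refine ⟨hX.hn, ?_, ?_, ?_, ?_, ?_, ?_, ?_⟩
    · intro i j
      rw [hmulU, hX.mul i j, Matrix.mul_sum, Matrix.sum_mul]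
      refine Finset.sum_congr rfl fun m _ => ?_
      rw [Matrix.mul_smul, Matrix.smul_mul]
    · rw [hX.one, Matrix.mul_one, hUU]
    · intro i
      rw [hX.star i, Matrix.conjTranspose_mul, Matrix.conjTranspose_mul,
        Matrix.conjTranspose_conjTranspose, Matrix.mul_assoc]
    · intro i p q hpq
      exact hblk (X i) (hX.blkX i) p q hpq
    · intro p q hpq
      exact hblk D hX.blkD p q hpq
    · have h1 := hX.sq
      rw [hsqf] at h1
      refine le_trans (le_of_eq (hsqf (fun p => c (e p).1))) (le_trans (le_of_eq ?_) h1)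
      exact Finset.sum_congr rfl fun c0 _ => by rw [hdl]
    · intro i j m
      rw [hmulU, hmulU, hmulU, hX.tr i j m, htr]
  · refine ⟨?_, ?_, ?_, ?_, ?_, ?_⟩
    · intro p q hpq
      have h1 : (e p).1 = (e q).1 := Fin.castLE_injective hgr hpq
      simp only [h1]
    · intro p q hpq
      have h1 : (e p).1 = (e q).1 := Fin.castLE_injective hgr hpq
      simp only [h1]
    · intro p
      exact (e p).2.2
    · intro p q hpq hα
      have h1 : (e p).1 = (e q).1 := Fin.castLE_injective hgr hpq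
      have h2 : ((e p).2 : ℕ) = ((e q).2 : ℕ) := congrArg Fin.val hα
      apply e.injective
      have key : ∀ u v : (Σ l : Fin g, Fin (τ.w (b l))), u.1 = v.1 → (u.2 : ℕ) = (v.2 : ℕ) →
          u = v := by
        rintro ⟨l, x⟩ ⟨l', y⟩ h h'
        obtain rfl : l = l' := h
        have h'' : x = y := Fin.ext h'
        rw [h'']
      exact key _ _ h1 h2
    · intro p x hx
      refine ⟨e.symm ⟨(e p).1, ⟨x, hx⟩⟩, ?_, ?_⟩
      · simp only [Equiv.apply_symm_apply]
      · apply Fin.ext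
        have key : ∀ u : (Σ l : Fin g, Fin (τ.w (b l))), e (e.symm u) = u :=
          fun u => e.apply_symm_apply u
        have h1 := congrArg (fun u : (Σ l : Fin g, Fin (τ.w (b l))) => (u.2 : ℕ))
          (key ⟨(e p).1, ⟨x, hx⟩⟩)
        exact h1
    · intro j p q
      rw [hform]
      have h1 : ((e p).1 = (e q).1) ↔ (Fin.castLE hgr (e p).1 = Fin.castLE hgr (e q).1) :=
        ⟨fun h => by rw [h], fun h => Fin.castLE_injective hgr h⟩
      simp only [← h1]
  · intro c1 c2 i hgd h' hs' hi'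
    have hUh : ∀ A : Matrix (Fin n) (Fin n) ℂ, A * U = U * (Uᴴ * A * U) := by
      intro A
      calc A * U = (U * Uᴴ) * A * U := by rw [hUU', Matrix.one_mul]
        _ = U * (Uᴴ * A * U) := by simp only [Matrix.mul_assoc]
    have hUh' : ∀ A : Matrix (Fin n) (Fin n) ℂ, Uᴴ * A = (Uᴴ * A * U) * Uᴴ := by
      intro A
      calc Uᴴ * A = Uᴴ * A * (U * Uᴴ) := by rw [hUU', Matrix.mul_one]
        _ = (Uᴴ * A * U) * Uᴴ := by simp only [Matrix.mul_assoc]
    have key : ∀ A : Matrix (Fin n) (Fin n) ℂ, h' * (Uᴴ * A * U) = (Uᴴ * A * U) * h' →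
        (U * h' * Uᴴ) * A = A * (U * h' * Uᴴ) := by
      intro A hc
      calc (U * h' * Uᴴ) * A = U * h' * (Uᴴ * A) := by simp only [Matrix.mul_assoc]
        _ = U * h' * ((Uᴴ * A * U) * Uᴴ) := by rw [← hUh' A]
        _ = U * (h' * (Uᴴ * A * U)) * Uᴴ := by simp only [Matrix.mul_assoc]
        _ = (U * (Uᴴ * A * U)) * h' * Uᴴ := by rw [hc]; simp only [Matrix.mul_assoc]
        _ = A * (U * h' * Uᴴ) := by rw [← hUh A]; simp only [Matrix.mul_assoc]
    have hconj : ∀ A : Matrix (Fin n) (Fin n) ℂ, (Uᴴ * A * U)ᴴ = Uᴴ * Aᴴ * U := by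
      intro A
      rw [Matrix.conjTranspose_mul, Matrix.conjTranspose_mul,
        Matrix.conjTranspose_conjTranspose, Matrix.mul_assoc]
    have hg1 := hgd (U * h' * Uᴴ) ?_ ?_
    · have h2 : h' = Uᴴ * (U * h' * Uᴴ) * U := by
        calc h' = (Uᴴ * U) * h' * (Uᴴ * U) := by rw [hUU, Matrix.one_mul, Matrix.mul_one]
          _ = Uᴴ * (U * h' * Uᴴ) * U := by simp only [Matrix.mul_assoc]
      show h' * (Uᴴ * X i * U) = (Uᴴ * X i * U) * h'
      rw [h2, hmulU, hmulU, hg1]
    · intro s t hst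
      rw [Matrix.mul_apply] at hst
      obtain ⟨q, -, hq⟩ := Finset.exists_ne_zero_of_sum_ne_zero hst
      have hq1 := left_ne_zero_of_mul hq
      have hq2 := right_ne_zero_of_mul hq
      rw [Matrix.mul_apply] at hq1
      obtain ⟨p, -, hp⟩ := Finset.exists_ne_zero_of_sum_ne_zero hq1
      have hp1 := left_ne_zero_of_mul hp
      have hp2 := right_ne_zero_of_mul hp
      have hq3 : U t q ≠ 0 := by
        intro h0
        apply hq2
        rw [Matrix.conjTranspose_apply, h0, star_zero]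
      obtain ⟨h3, h4⟩ := hs' p q hp2
      exact ⟨by rw [hUs s p hp1]; exact h3, by rw [hUs t q hq3]; exact h4⟩
    · intro j
      refine ⟨key _ (hi' j).1, key _ ?_⟩
      have h5 := (hi' j).2
      simp only [hconj] at h5
      exact h5

end Pool.Agent.helper93.FR
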